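import Mathlib
import Pool.Agent.MP_fed7c7_lc.H56.Comb

set_option autoImplicit false

/-!
A relation of exponential growth with one auxiliary unknown. If `A = ch a j`, `C = ps A i` and some
Pell sequence with parameter `G ≡ a` modulo `ch A i`, `G ≡ A` modulo `C` contains a pair
`(S, W)` with `S ≡ A` modulo `ch A i` and `C ∣ W`, then `|i| ≤ |j|`.
-/

namespace Pool.Agent.MP_fed7c7_lc.H21

open Polynomial Pool.Agent.MP_fed7c7_lc.H56

theorem ch_dvd_sub (A G n : ℤ) : G - A ∣ ch G n - ch A n := sub_dvd_eval_sub _ _ _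

theorem ch_comp (a j i : ℤ) : ch (ch a j) i = ch a (i * j) := by
  simp [ch, Chebyshev.T_mul]

theorem ch_abs (a n : ℤ) : ch a |n| = ch a n := by
  rcases abs_choice n with h | h <;> rw [h]
  exact ch_neg a n

theorem ch_grow {a : ℤ} (ha : 1 ≤ a) {n : ℤ} (hn : 0 ≤ n) : a * ch a n ≤ ch a (n + 1) := by
  rw [ch_succ]
  have := mul_nonneg (show 0 ≤ a ^ 2 - 1 by nlinarith) (ps_nonneg ha hn)
  linarith

theorem pow_le_ch {a : ℤ} (ha : 1 ≤ a) (n : ℕ) : a ^ n ≤ ch a n := by
  induction n with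
  | zero => simp [ch_zero]
  | succ n ih =>
    push_cast
    rw [pow_succ']
    exact (mul_le_mul_of_nonneg_left ih (by omega)).trans (ch_grow ha (by omega))

theorem ch_mono {a : ℤ} (ha : 1 ≤ a) {r s : ℤ} (h : |r| ≤ |s|) : ch a r ≤ ch a s := by
  refine (le_abs_self _).trans (abs_le_of_sq_le_sq ?_ (ch_pos ha s).le)
  have h1 : |ps a r| ≤ |ps a s| := by
    rw [abs_ps ha, abs_ps ha]; exact (ps_strictMono ha).monotone h
  have h2 := sq_le_sq.2 h1
  rw [pell, pell]
  nlinarith [mul_le_mul_of_nonneg_left h2 (show 0 ≤ a ^ 2 - 1 by nlinarith)]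

theorem ch_inj {a : ℤ} (ha : 2 ≤ a) {r s : ℤ} (h : ch a r = ch a s) : r = s ∨ r = -s := by
  have h1 := pell a r
  rw [h, pell, add_left_inj, mul_right_inj' (by nlinarith), sq_eq_sq_iff_abs_eq_abs,
    abs_ps (by omega), abs_ps (by omega)] at h1
  exact abs_eq_abs.1 ((ps_strictMono (by omega)).injective h1).symm

theorem ch_half (a m n k : ℤ) :
    ch a m ∣ ch a (n + 2 * m * k) - ch a n ∨ ch a m ∣ ch a (n + 2 * m * k) + ch a n := by
  have step : ∀ n, ch a m ∣ ch a (n + 2 * m) + ch a n := fun n =>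
    ⟨2 * (ch a n * ch a m + (a ^ 2 - 1) * ps a n * ps a m), by
      rw [two_mul m, ch_add, ch_add, ps_add]
      linear_combination (-ch a n) * pell a m⟩
  induction k using Int.induction_on with
  | zero => simp
  | succ k ih =>
    have := step (n + 2 * m * k)
    rw [show n + 2 * m * (k + 1) = n + 2 * m * k + 2 * m by ring]
    rcases ih with g | g
    · right; exact dv (this.sub g) (by ring)
    · left; exact dv (this.sub g) (by ring)
  | pred k ih =>
    have := step (n + 2 * m * (-k - 1))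
    rw [show n + 2 * m * (-k - 1) + 2 * m = n + 2 * m * -k by ring] at this
    rcases ih with g | g
    · right; exact dv (this.sub g) (by ring)
    · left; exact dv (this.sub g) (by ring)

theorem ch_step {a : ℤ} (ha : 3 ≤ a) {j m k : ℤ} (hj : |j| < |m|)
    (h : ch a m ∣ ch a k - ch a j ∨ ch a m ∣ ch a k + ch a j) : m ∣ k - j ∨ m ∣ k + j := by
  wlog hpos : 0 < m generalizing m
  · have hm : m ≠ 0 := by rintro rfl; simp at hj; linarith [abs_nonneg j]
    have := this (by rwa [abs_neg]) (by rwa [ch_neg]) (by omega)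
    simpa using this
  have a1 : 1 ≤ a := by omega
  rw [abs_of_pos hpos] at hj
  set r := (k + m) % (2 * m) - m with hr
  have h1 := Int.emod_nonneg (k + m) (show 2 * m ≠ 0 by omega)
  have h2 := Int.emod_lt_of_pos (k + m) (show 0 < 2 * m by omega)
  have h3 : k = r + 2 * m * ((k + m) / (2 * m)) := by
    linarith [Int.emod_add_mul_ediv (k + m) (2 * m)]
  have big : 3 * ch a (m - 1) ≤ ch a m := by
    have := ch_grow a1 (n := m - 1) (by omega)
    rw [sub_add_cancel] at this
    nlinarith [ch_pos a1 (m - 1)]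
  have e1 : |m - 1| = m - 1 := abs_of_nonneg (by omega)
  have j1 : ch a j ≤ ch a (m - 1) := ch_mono a1 (by omega)
  have j0 := ch_pos a1 j
  have h4 : ch a m ∣ ch a r - ch a j ∨ ch a m ∣ ch a r + ch a j := by
    have g := ch_half a m r ((k + m) / (2 * m))
    rw [← h3] at g
    rcases h with h | h <;> rcases g with g | g
    · left; exact dv (h.sub g) (by ring)
    · right; exact dv (g.sub h) (by ring)
    · right; exact dv (h.sub g) (by ring)
    · left; exact dv (g.sub h) (by ring)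
  have h5 : r = j ∨ r = -j := by
    rcases eq_or_ne r (-m) with e | e
    · rw [e, ch_neg] at h4
      have : ch a m ∣ ch a j := by
        rcases h4 with g | g
        · exact dv ((dvd_refl _).sub g) (by ring)
        · exact dv (g.sub (dvd_refl _)) (by ring)
      have := Int.le_of_dvd j0 this
      omega
    · have r1 : ch a r ≤ ch a (m - 1) := ch_mono a1 (by rw [e1, abs_le]; omega)
      have r0 := ch_pos a1 r
      rcases h4 with g | g
      · exact ch_inj (by omega) (sub_eq_zero.1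
          (Int.eq_zero_of_abs_lt_dvd g (by rw [abs_lt]; omega)))
      · have := Int.le_of_dvd (by omega) g
        omega
  rcases h5 with e | e
  · left; exact ⟨2 * ((k + m) / (2 * m)), by linear_combination h3 + e⟩
  · right; exact ⟨2 * ((k + m) / (2 * m)), by linear_combination h3 + e⟩

theorem ch_mod (a n : ℤ) : a ^ 2 - 1 ∣ ch a n - 1 ∨ a ^ 2 - 1 ∣ ch a n - a := by
  induction n using Int.induction_on with
  | zero => simp [ch_zero]
  | succ k ih =>
    rw [ch_succ]
    rcases ih with g | g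
    · right; exact dv ((g.mul_left a).add (dvd_mul_right _ (ps a k))) (by ring)
    · left; exact dv (((g.mul_left a).add (dvd_mul_right _ (ps a k))).add (dvd_refl _)) (by ring)
  | pred k ih =>
    rw [ch_pred]
    rcases ih with g | g
    · right; exact dv ((g.mul_left a).sub (dvd_mul_right _ (ps a (-k)))) (by ring)
    · left
      exact dv (((g.mul_left a).sub (dvd_mul_right _ (ps a (-k)))).add (dvd_refl _)) (by ring)

theorem exists_both {A x y : ℤ} (hA : 2 ≤ A) (h : x ^ 2 = (A ^ 2 - 1) * y ^ 2 + 1) :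
    ∃ n, y = ps A n ∧ (x = ch A n ∨ x = -ch A n) := by
  obtain ⟨n, rfl⟩ := exists_index hA h
  exact ⟨n, rfl, sq_eq_sq_iff_eq_or_eq_neg.1 (h.trans (pell A n).symm)⟩

/-- The number `A`. -/
def aA (a v : ℤ) : ℤ := a * (1 + (a ^ 2 - 1) * v)

/-- The quotient `(A ^ 2 - 1) / (a ^ 2 - 1)`. -/
def qQ (a v : ℤ) : ℤ := 1 + a ^ 2 * v * (2 + (a ^ 2 - 1) * v)

theorem aA_sq (a v : ℤ) : aA a v ^ 2 - 1 = (a ^ 2 - 1) * qQ a v := by unfold aA qQ; ring

theorem aA_index {a v : ℤ} (ha : 3 ≤ a) (h : IsSquare (qQ a v)) :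
    ∃ j : ℕ, 1 ≤ j ∧ aA a v = ch a j := by
  obtain ⟨V, hV⟩ := h
  obtain ⟨j, -, e⟩ := exists_both (A := a) (x := aA a v) (y := V) (by omega)
    (by rw [sq V, ← hV]; linarith [aA_sq a v])
  have d : a ^ 2 - 1 ∣ aA a v - a := ⟨a * v, by unfold aA; ring⟩
  have e1 : aA a v = ch a j := by
    refine e.resolve_right fun e => ?_
    rw [e] at d
    rcases ch_mod a j with g | g
    · have := Int.le_of_dvd (show 0 < a + 1 by omega) (dv (g.add d).neg_right (by ring))
      nlinarith
    · have := Int.le_of_dvd (show 0 < 2 * a by omega) (dv (g.add d).neg_right (by ring))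
      nlinarith
  refine ⟨j.natAbs, Nat.pos_of_ne_zero fun g => ?_, by rw [e1, Int.natCast_natAbs, ch_abs]⟩
  rw [Int.natAbs_eq_zero.1 g, ch_zero] at e1
  have := Int.le_of_dvd one_pos ⟨_, e1.symm⟩
  omega

theorem aA_complete (a : ℤ) (n : ℕ) : ∃ v, aA a v = ch a (2 * n + 1) := by
  induction n with
  | zero => exact ⟨0, by simp [aA, ch]⟩
  | succ n ih =>
    obtain ⟨v, hv⟩ := ih
    have h1 : a ∣ ps a (2 * n + 1 + 1) := by
      have := ps_dvd_mul a (1 + 1) (n + 1)
      have e : ch a 1 = a := by simp [ch]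
      rw [ps_succ, ps_one, e, show ((1 : ℤ) + 1) * (n + 1) = 2 * n + 1 + 1 by ring] at this
      exact (show a ∣ a + a * 1 from ⟨2, by ring⟩).trans this
    obtain ⟨w, hw⟩ := h1
    have h2 := ch_succ a (2 * n + 1 + 1)
    have h3 := ch_pred a (2 * n + 1 + 1)
    refine ⟨v + 2 * w, ?_⟩
    rw [add_sub_cancel_right, ← hv, hw] at h3
    rw [hw] at h2
    push_cast
    rw [show 2 * ((n : ℤ) + 1) + 1 = 2 * n + 1 + 1 + 1 by ring, h2]
    unfold aA at h3 ⊢
    linear_combination h3

/-- The parameter of the linking sequence. -/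
def gL (a A C : ℤ) : ℤ := a + (A - a) * pl A C

/-- The linking unknown. -/
def sL (A C y : ℤ) : ℤ := A + pl A C * y

theorem link {a C y : ℤ} {j : ℕ} (ha : 3 ≤ a) (hj : 1 ≤ j) (hC : C ≠ 0)
    (h1 : IsSquare (pl (ch a j) C))
    (h2 : (gL a (ch a j) C ^ 2 - 1) * C ^ 2 ∣ sL (ch a j) C y ^ 2 - 1)
    (h3 : IsSquare ((gL a (ch a j) C ^ 2 - 1) * (sL (ch a j) C y ^ 2 - 1))) :
    ∃ i, C = ps (ch a j) i ∧ |i| ≤ j := by
  have hA : a ≤ ch a j := (le_self_pow₀ (by omega) (by omega)).trans (pow_le_ch (by omega) j)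
  set A := ch a j with eA
  obtain ⟨d, hd⟩ := h1
  obtain ⟨i, hi⟩ := exists_index (A := A) (x := d) (y := C) (by omega) (by rw [sq, ← hd, pl])
  refine ⟨i, hi, ?_⟩
  have eD : pl A C = ch a (i * j) ^ 2 := by rw [pl, hi, ← pell, eA, ch_comp]
  have hG : a ≤ gL a A C := by
    have := mul_nonneg (sub_nonneg.2 hA) (pl_pos (A := A) (by omega) C).le
    unfold gL; omega
  set G := gL a A C with eG
  set S := sL A C y with eS
  obtain ⟨w, hw⟩ := h2
  obtain ⟨e, he⟩ := h3
  obtain ⟨u, rfl⟩ : IsSquare w := isSquare_of_mul (b := (G ^ 2 - 1) * C) (c := e)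
    (mul_ne_zero (by nlinarith) hC) (by rw [sq e, ← he, hw]; ring)
  obtain ⟨k, hk, hS⟩ := exists_both (A := G) (x := S) (y := C * u) (by omega)
    (by linear_combination hw)
  have d1 : C ∣ G - A := ⟨(A - a) * (A ^ 2 - 1) * C, by rw [eG, gL, pl]; ring⟩
  have d2 : i ∣ k := by
    refine dvd_index (A := A) (by omega) (hi ▸ ?_)
    exact dv ((dvd_mul_right C u).sub (d1.trans (ps_dvd_sub A G k))) (by rw [hk]; ring)
  have d3 : ch a (i * j) ∣ pl A C := eD ▸ dvd_pow_self _ two_ne_zero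
  have d4 : ch a (i * j) ∣ ch G k - ch a k :=
    (d3.trans ⟨A - a, by rw [eG, gL]; ring⟩).trans (ch_dvd_sub a G k)
  have d5 : ch a (i * j) ∣ S - A := d3.trans ⟨y, by rw [eS, sL]; ring⟩
  by_contra g
  have i2 : 2 ≤ |i| := by omega
  have d6 := ch_step ha (j := j) (m := i * j) (k := k)
    (by rw [abs_mul, abs_of_nonneg (show (0 : ℤ) ≤ j by omega)]; nlinarith) (by
      rcases hS with s | s
      · left; exact dv (d5.sub d4) (by rw [s]; ring)
      · right; exact dv (d5.add d4).neg_right (by rw [s]; ring))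
  have d7 : i ∣ j := by
    rcases d6 with s | s
    · exact dv (d2.sub ((dvd_mul_right i j).trans s)) (by ring)
    · exact dv (((dvd_mul_right i j).trans s).sub d2) (by ring)
  exact g (Int.le_of_dvd (by omega) ((abs_dvd _ _).2 d7))

theorem link_complete (a A n : ℤ) (h : A = ch a n) : ∃ y w,
    sL A (ps A n) y ^ 2 - 1 = (gL a A (ps A n) ^ 2 - 1) * ps A n ^ 2 * w ^ 2 := by
  set C := ps A n with eC
  set G := gL a A C with eG
  obtain ⟨y, hy⟩ : pl A C ∣ ch G n - A :=
    Dvd.dvd.trans ⟨A - a, by rw [eG, gL]; ring⟩ (h ▸ ch_dvd_sub a G n)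
  obtain ⟨w, hw⟩ : C ∣ ps G n := dv ((Dvd.dvd.trans ⟨(A - a) * (A ^ 2 - 1) * C, by
    rw [eG, gL, pl]; ring⟩ (ps_dvd_sub A G n)).add (dvd_refl C)) (by rw [eC]; ring)
  refine ⟨y, w, ?_⟩
  rw [sL, show A + pl A C * y = ch G n by linarith, pell, hw]
  ring

end Pool.Agent.MP_fed7c7_lc.H21
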