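import Mathlib
import Pool.Agent.MP_fed7c7_lc.H7.Reduce
import Pool.Agent.MP_fed7c7_lc.H21.Link

set_option autoImplicit false

/-!
Every recursively enumerable set is defined by one equation in six integer unknowns and one
nonnegative unknown.
-/

namespace Pool.Agent.MP_fed7c7_lc.H21

open Finset Pool.Agent.MP_fed7c7_lc.H56 Pool.Agent.MP_fed7c7_lc.H7

/-- Two squares, one divisibility and one inequality as one equation in a nonnegative unknown. -/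
def cb (P Q S T R z : ℤ) : ℤ :=
  cmb (S ^ 2 * z + T ^ 2 - S ^ 2 * (2 * R - 1) * (T ^ 2 + (1 + P + (1 + P ^ 2) * Q)))
    (S ^ 2 * (2 * R - 1)) P Q

theorem cb_sound {P Q S T R z : ℤ} (hS : S ≠ 0) (hz : 0 ≤ z) (h : cb P Q S T R z = 0) :
    IsSquare P ∧ IsSquare Q ∧ S ∣ T ∧ 0 < R := by
  unfold cb at h
  set m := S ^ 2 * (2 * R - 1) with hm
  set r := S ^ 2 * z + T ^ 2 - m * (T ^ 2 + (1 + P + (1 + P ^ 2) * Q)) with hr
  have S2 := sq_pos_of_ne_zero hS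
  obtain ⟨h1, h2⟩ := cmb_sound h
  obtain ⟨⟨s, rfl⟩, t, rfl⟩ := h2 (mul_ne_zero S2.ne' (by omega))
  have d : S ^ 2 ∣ m := dvd_mul_right _ _
  refine ⟨⟨s, rfl⟩, ⟨t, rfl⟩, (Int.pow_dvd_pow_iff two_ne_zero).1 (dv
    (((d.trans h1).add (d.mul_right (T ^ 2 + (1 + s * s + (1 + (s * s) ^ 2) * (t * t))))).sub
      (dvd_mul_right _ z)) (by rw [hr]; ring)), ?_⟩
  by_contra g
  have m0 : 0 < -m := by rw [hm]; nlinarith
  set c := 1 + (s * s) ^ 2 with hc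
  have c0 : 0 < c := by positivity
  have ab : ∀ s : ℤ, |s| ≤ s * s := fun s => by
    rw [← abs_mul_abs_self, ← sq]; exact Int.le_self_sq _
  have s1 := ab s
  have t1 := ab t
  have r1 : -m * (1 + s * s + c * (t * t)) ≤ r := by
    have := mul_nonneg S2.le hz
    have := mul_nonneg m0.le (sq_nonneg T)
    rw [hr]; nlinarith [sq_nonneg T]
  have key : ∀ s' t' : ℤ, |s'| ≤ s * s → |t'| ≤ t * t → 0 < r + m * s' + m * c * t' := by
    intro s' t' u1 u2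
    have v1 := mul_le_mul_of_nonneg_left (le_abs_self s' |>.trans u1) m0.le
    have v2 := mul_le_mul_of_nonneg_left (le_abs_self t' |>.trans u2) (mul_pos m0 c0).le
    nlinarith
  have e : (r + m * s + m * c * t) * (r + m * s + m * c * -t) *
      ((r + m * -s + m * c * t) * (r + m * -s + m * c * -t)) = 0 := by
    unfold cmb at h
    linear_combination h
  have s2 : |-s| ≤ s * s := by rwa [abs_neg]
  have t2 : |-t| ≤ t * t := by rwa [abs_neg]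
  exact (mul_pos (mul_pos (key _ _ s1 t1) (key _ _ s1 t2))
    (mul_pos (key _ _ s2 t1) (key _ _ s2 t2))).ne' e

theorem cb_complete {P Q S T R : ℤ} (hP : IsSquare P) (hQ : IsSquare Q) (hS : S ∣ T)
    (hR : 0 < R) : ∃ z, 0 ≤ z ∧ cb P Q S T R z = 0 := by
  obtain ⟨s, rfl⟩ := hP
  obtain ⟨t, rfl⟩ := hQ
  obtain ⟨q, rfl⟩ := hS
  rcases eq_or_ne S 0 with rfl | S0
  · exact ⟨0, le_rfl, by simp [cb, cmb]⟩
  rw [← abs_mul_abs_self s, ← abs_mul_abs_self t]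
  generalize hs : |s| = s'
  generalize ht : |t| = t'
  have s0 : 0 ≤ s' := hs ▸ abs_nonneg s
  have t0 : 0 ≤ t' := ht ▸ abs_nonneg t
  refine ⟨(2 * R - 1) * ((S * q) ^ 2 + (1 + s' * s' + (1 + (s' * s') ^ 2) * (t' * t')) +
    (s' + (1 + (s' * s') ^ 2) * t')) - q ^ 2, ?_, ?_⟩
  · have h1 : q ^ 2 ≤ (S * q) ^ 2 := by
      rw [mul_pow]; exact le_mul_of_one_le_left (sq_nonneg q) (sq_pos_of_ne_zero S0)
    have h2 : 0 ≤ (1 + s' * s' + (1 + (s' * s') ^ 2) * (t' * t')) +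
      (s' + (1 + (s' * s') ^ 2) * t') := by positivity
    have h3 := le_mul_of_one_le_left (add_nonneg (sq_nonneg (S * q)) h2)
      (show 1 ≤ 2 * R - 1 by omega)
    linarith
  · unfold cb
    rw [← cmb_complete (S ^ 2 * (2 * R - 1)) s' t']
    congr 1
    ring

def k4 (Z b p q A Q C G S l z : ℤ) : ℤ :=
  cb (pl A C * Q) ((G ^ 2 - 1) * (S ^ 2 - 1)) ((G ^ 2 - 1) * C ^ 2) (S ^ 2 - 1)
    (rr A (Z * l) (2 * A * C) b p q * Z ^ 2) z

def k3 (Z b p q a A Q C l y z : ℤ) : ℤ := k4 Z b p q A Q C (gL a A C) (sL A C y) l z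

def k2 (X Z b p q a A Q h l y z : ℤ) : ℤ := k3 Z b p q a A Q (X + 2 * (A - 1) * h) l y z

def k1 (X Z b p q a v h l y z : ℤ) : ℤ := k2 X Z b p q a (aA a v) (qQ a v) h l y z

def k0 (X Z b p q v h l y z : ℤ) : ℤ := k1 X Z b p q (2800 * (X ^ 2 + 1) * Z ^ 2) v h l y z

/-- The equation in the unknowns `v h l y z`. -/
def core7 (X Y b p q v h l y z : ℤ) : ℤ := k0 (2 * X + 1) (b * (2 * Y)) b p q v h l y z

section
variable {σ : Type} {X Y Z b p q a v A Q C G S h l y z P T R : (σ → ℤ) → ℤ}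

@[fun_prop]
theorem pf_cb (_ : PF P) (_ : PF Q) (_ : PF S) (_ : PF T) (_ : PF R) (_ : PF z) : PF fun w =>
    cb (P w) (Q w) (S w) (T w) (R w) (z w) := by
  unfold cb; fun_prop

@[fun_prop]
theorem pf_k4 (_ : PF Z) (_ : PF b) (_ : PF p) (_ : PF q) (_ : PF A) (_ : PF Q) (_ : PF C)
    (_ : PF G) (_ : PF S) (_ : PF l) (_ : PF z) : PF fun w =>
    k4 (Z w) (b w) (p w) (q w) (A w) (Q w) (C w) (G w) (S w) (l w) (z w) := by
  unfold k4; fun_prop

@[fun_prop]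
theorem pf_k3 (_ : PF Z) (_ : PF b) (_ : PF p) (_ : PF q) (_ : PF a) (_ : PF A) (_ : PF Q)
    (_ : PF C) (_ : PF l) (_ : PF y) (_ : PF z) : PF fun w =>
    k3 (Z w) (b w) (p w) (q w) (a w) (A w) (Q w) (C w) (l w) (y w) (z w) := by
  unfold k3 gL sL; fun_prop

@[fun_prop]
theorem pf_k2 (_ : PF X) (_ : PF Z) (_ : PF b) (_ : PF p) (_ : PF q) (_ : PF a) (_ : PF A)
    (_ : PF Q) (_ : PF h) (_ : PF l) (_ : PF y) (_ : PF z) : PF fun w =>
    k2 (X w) (Z w) (b w) (p w) (q w) (a w) (A w) (Q w) (h w) (l w) (y w) (z w) := by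
  unfold k2; fun_prop

@[fun_prop]
theorem pf_k1 (_ : PF X) (_ : PF Z) (_ : PF b) (_ : PF p) (_ : PF q) (_ : PF a) (_ : PF v)
    (_ : PF h) (_ : PF l) (_ : PF y) (_ : PF z) : PF fun w =>
    k1 (X w) (Z w) (b w) (p w) (q w) (a w) (v w) (h w) (l w) (y w) (z w) := by
  unfold k1 aA qQ; fun_prop

@[fun_prop]
theorem pf_k0 (_ : PF X) (_ : PF Z) (_ : PF b) (_ : PF p) (_ : PF q) (_ : PF v)
    (_ : PF h) (_ : PF l) (_ : PF y) (_ : PF z) : PF fun w =>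
    k0 (X w) (Z w) (b w) (p w) (q w) (v w) (h w) (l w) (y w) (z w) := by
  unfold k0; fun_prop

@[fun_prop]
theorem pf_core7 (_ : PF X) (_ : PF Y) (_ : PF b) (_ : PF p) (_ : PF q) (_ : PF v)
    (_ : PF h) (_ : PF l) (_ : PF y) (_ : PF z) : PF fun w =>
    core7 (X w) (Y w) (b w) (p w) (q w) (v w) (h w) (l w) (y w) (z w) := by
  unfold core7; fun_prop

end

theorem large7 {a Z : ℤ} {n c : ℕ} (hn : 1 ≤ n) (hc : 1 ≤ c) (hZ : (c : ℤ) ∣ Z) (Z0 : Z ≠ 0)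
    (ha : a = 2800 * (n ^ 2 + 1) * Z ^ 2) :
    n + 3 ≤ a ∧ 700 * c * (n + 1) * 4 ^ n ≤ a ^ n := by
  have c1 : (c : ℤ) ≤ Z ^ 2 :=
    Int.le_of_dvd (sq_pos_of_ne_zero Z0) (hZ.trans (dvd_pow_self Z two_ne_zero))
  have n1 : (1 : ℤ) ≤ n := by omega
  have n2 : (n : ℤ) + 1 ≤ n ^ 2 + 1 := by nlinarith
  have a1 : 2800 * (n + 1) * (c : ℤ) ≤ a := by
    rw [ha]; exact mul_le_mul (by omega) c1 (by omega) (by positivity)
  have a2 : 2800 * (n + 1) * (1 : ℤ) ≤ 2800 * (n + 1) * c :=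
    mul_le_mul_of_nonneg_left (by omega) (by omega)
  refine ⟨by omega, ?_⟩
  obtain ⟨k, rfl⟩ := Nat.exists_eq_add_of_le' hn
  have a3 : (4 : ℤ) ^ k ≤ a ^ k := pow_le_pow_left₀ (by omega) (by omega) k
  rw [pow_succ, pow_succ]
  refine le_trans (le_of_eq ?_) (mul_le_mul a3 a1 (by positivity) (pow_nonneg (by omega) _))
  ring

theorem core7_sound {X Y b p q v h l y z : ℤ} (hz : 0 ≤ z) (g : core7 X Y b p q v h l y z = 0) :
    p ^ 2 < q ^ 2 ∧ b ≠ 0 ∧ ∀ n c : ℕ, X = n → b = c →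
      b * (2 * Y) ∣ 4 ^ (2 * n + 1) + b * (2 * n + 1).centralBinom ∨
      b * (2 * Y) ∣ 4 ^ (2 * n + 1) - b * (2 * n + 1).centralBinom := by
  unfold core7 k0 k1 k2 k3 k4 at g
  set Z := b * (2 * Y) with hZ
  set a := 2800 * ((2 * X + 1) ^ 2 + 1) * Z ^ 2 with ha
  set A := aA a v with hA
  set C := 2 * X + 1 + 2 * (A - 1) * h with hC
  have C0 : C ≠ 0 := by
    have : C = 2 * (X + (A - 1) * h) + 1 := by rw [hC]; ring
    omega
  have a2 : 2 ∣ a := ⟨1400 * ((2 * X + 1) ^ 2 + 1) * Z ^ 2, by rw [ha]; ring⟩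
  have aA' : a ∣ A := dvd_mul_right _ _
  have G2 : 2 ∣ gL a A C := a2.add (((a2.trans aA').sub a2).mul_right _)
  have G0 : gL a A C ^ 2 - 1 ≠ 0 := fun e => by
    rcases sq_eq_one_iff.1 (sub_eq_zero.1 e) with e | e <;> omega
  obtain ⟨h1, h2, h3, hR⟩ := cb_sound (mul_ne_zero G0 (pow_ne_zero 2 C0)) hz g
  have Z0 : Z ≠ 0 := by rintro e; simp [e] at hR
  have Z2 := sq_pos_of_ne_zero Z0
  replace hR := pos_of_mul_pos_left hR Z2.le
  have a3 : 3 ≤ a := by rw [ha]; nlinarith [sq_nonneg (2 * X + 1)]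
  have A0 : A ≠ 0 := mul_ne_zero (by omega) fun e => by
    have := Int.le_of_dvd one_pos (show a ^ 2 - 1 ∣ 1 from ⟨-v, by linarith⟩)
    nlinarith
  have D0 : 0 < pl A C := by
    have : 0 ≤ A ^ 2 - 1 := by have := sq_pos_of_ne_zero A0; omega
    unfold pl; positivity
  have co : IsCoprime (qQ a v) (pl A C) :=
    cop ⟨(a ^ 2 - 1) * C ^ 2, by rw [pl, hA, aA_sq]; ring⟩
  obtain ⟨d, hd⟩ := sq_or co.symm h1 D0
  have hQ : IsSquare (qQ a v) := by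
    obtain ⟨s, hs⟩ := h1
    exact isSquare_of_mul (b := d) (c := s) (by rintro rfl; simp at hd; omega)
      (by rw [hd, hs, sq])
  obtain ⟨j, j1, hj⟩ := aA_index a3 hQ
  rw [← hA] at hj
  have A1 : a ^ j ≤ A := hj ▸ pow_le_ch (by omega) j
  have A2 : a ≤ A := (le_self_pow₀ (by omega) (by omega)).trans A1
  have b0 : b ≠ 0 := left_ne_zero_of_mul Z0
  refine ⟨(rr_sound (by omega) hR).1, b0, ?_⟩
  rintro n c rfl rfl
  obtain ⟨i, hi, ij⟩ := link (C := C) (y := y) a3 j1 C0 (hj ▸ ⟨d, by rw [← hd, sq]⟩) (hj ▸ h3)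
    (hj ▸ h2)
  rw [← hj] at hi
  obtain ⟨u1, u2⟩ := large7 (a := a) (Z := Z) (n := 2 * n + 1) (c := c) (by omega) (by omega)
    (dvd_mul_right _ _) Z0 (by rw [ha]; push_cast; ring)
  push_cast at u1
  have A3 : a * j ≤ A := by
    refine le_trans ?_ A1
    obtain ⟨k, rfl⟩ := Nat.exists_eq_add_of_le' j1
    have e1 : ((k + 1 : ℕ) : ℤ) ≤ 2 ^ k := by exact_mod_cast k.lt_two_pow_self
    rw [pow_succ']
    exact mul_le_mul_of_nonneg_left (e1.trans (pow_le_pow_left₀ (by omega) (by omega) k))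
      (by omega)
  have e : i = 2 * n + 1 := by
    have d1 : A - 1 ∣ i - (2 * n + 1) :=
      dv ((dvd_mul_right (A - 1) (2 * h)).sub (ps_index A i)) (by rw [← hi, hC]; ring)
    have j2 : (1 : ℤ) ≤ j := by omega
    have : |i - (2 * n + 1)| < A - 1 := by
      rw [abs_le] at ij
      rw [abs_lt]
      constructor <;> nlinarith
    linarith [Int.eq_zero_of_abs_lt_dvd d1 this]
  have j3 : 2 * n + 1 ≤ j := by
    have := (le_abs_self i).trans ij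
    omega
  exact read_sound (n := 2 * n + 1) (by omega) (by omega)
    (u2.trans ((pow_le_pow_right₀ (by omega) j3).trans A1)) (Or.inl (by rw [hi, e]; simp)) hR
    ((Dvd.dvd.trans ⟨2800 * ((2 * n + 1) ^ 2 + 1) * Z, by rw [ha]; ring⟩ aA').mul_left 2)
    (dvd_mul_right _ _)

theorem core7_complete {n c : ℕ} {Y p q : ℤ} (hc : 1 ≤ c) (hY : Y ≠ 0)
    (hp : 4 * p ^ 2 ≤ q ^ 2) (hq : q ≠ 0)
    (hd : c * (2 * Y) ∣ 4 ^ (2 * n + 1) + c * (2 * n + 1).centralBinom) :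
    ∃ v h l y z, 0 ≤ z ∧ core7 n Y c p q v h l y z = 0 := by
  set Z := c * (2 * Y) with hZ
  have Z0 : Z ≠ 0 := by positivity
  set a := 2800 * ((2 * n + 1) ^ 2 + 1) * Z ^ 2 with ha
  obtain ⟨u1, u2⟩ := large7 (a := a) (Z := Z) (n := 2 * n + 1) (c := c) (by omega) hc
    (dvd_mul_right _ _) Z0 (by rw [ha]; push_cast; ring)
  obtain ⟨v, hv⟩ := aA_complete a n
  set A := aA a v with hA
  have A1 : a ^ (2 * n + 1) ≤ A := by
    rw [hv]; exact_mod_cast pow_le_ch (a := a) (by omega) (2 * n + 1)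
  have aA' : a ∣ A := dvd_mul_right _ _
  obtain ⟨l, hl⟩ := read_complete (A := A) (n := 2 * n + 1) (by omega) hc (u2.trans A1)
    ((Dvd.dvd.trans ⟨2800 * ((2 * n + 1) ^ 2 + 1) * Z, by rw [ha]; ring⟩ aA').mul_left 2) hd
  obtain ⟨y, w, hy⟩ := link_complete a A _ hv
  push_cast at hl u1
  set C := ps A (2 * n + 1) with hC
  obtain ⟨h, hh⟩ : 2 * (A - 1) ∣ C - (2 * n + 1) := by
    have a2 : 2 ∣ A := Dvd.dvd.trans ⟨1400 * ((2 * n + 1) ^ 2 + 1) * Z ^ 2, by rw [ha]; ring⟩ aA'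
    obtain ⟨e, he⟩ := a2
    refine IsCoprime.mul_dvd ⟨e, -1, by linarith⟩ ?_ (ps_index A _)
    have key : ∀ k : ℕ, 2 ∣ ps A (2 * k + 1) - 1 := fun k => by
      induction k with
      | zero => simp [ps_one]
      | succ k ih =>
        push_cast
        rw [show 2 * ((k : ℤ) + 1) + 1 = 2 * k + 1 + 1 + 1 by ring, ps_two]
        exact dv ((dvd_mul_right 2 (A * ps A (2 * k + 1 + 1) - ps A (2 * k + 1))).add ih)
          (by ring)
    exact dv ((key n).sub (dvd_mul_right 2 (n : ℤ))) (by rw [hC]; ring)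
  have hQ : qQ a v = ps a (2 * n + 1) ^ 2 := by
    have h1 := aA_sq a v
    rw [← hA, hv, pell, add_sub_cancel_right] at h1
    exact (mul_left_cancel₀ (by nlinarith) h1).symm
  obtain ⟨z, z0, g⟩ := cb_complete (P := pl A C * qQ a v)
    (Q := (gL a A C ^ 2 - 1) * (sL A C y ^ 2 - 1)) (S := (gL a A C ^ 2 - 1) * C ^ 2)
    (T := sL A C y ^ 2 - 1) (R := rr A (Z * l) (2 * A * C) c p q * Z ^ 2)
    ⟨ch A (2 * n + 1) * ps a (2 * n + 1), by rw [hQ, pl, hC, ← pell]; ring⟩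
    ⟨(gL a A C ^ 2 - 1) * C * w, by rw [hy]; ring⟩ ⟨_, hy⟩
    (mul_pos (hl p q hp hq) (sq_pos_of_ne_zero Z0))
  refine ⟨v, h, l, y, z, z0, ?_⟩
  unfold core7 k0 k1 k2 k3 k4
  rwa [← hZ, ← ha, ← hA, show 2 * n + 1 + 2 * (A - 1) * h = C by linarith]

end Pool.Agent.MP_fed7c7_lc.H21
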