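import Mathlib
import Pool.Agent.MP_fed7c7_lc.H21.Seven

set_option autoImplicit false

/-!
Recursively enumerable sets reduce to equations in six integer unknowns and one nonnegative
unknown.
-/

namespace Pool.Agent.MP_fed7c7_lc.H21

open Finset Pool.Agent.MP_fed7c7_lc.H56 Pool.Agent.MP_fed7c7_lc.H7

theorem central_odd (n k : ℕ) :
    (2 ^ (k + 1) : ℤ) ∣ (2 * n + 1).centralBinom ↔ (2 ^ k : ℤ) ∣ n.centralBinom := by
  have h3 : ∀ n j : ℕ, (2 ^ j : ℤ) ∣ n.centralBinom ↔ j ≤ s2 n := fun n j => by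
    rw [← dvd_central]; exact_mod_cast Iff.rfl
  rw [h3, h3, s2_rec (2 * n + 1), show (2 * n + 1) / 2 = n by omega]
  omega

def e7 (d : Dat) (a g b H B v h l y z : ℤ) : ℤ :=
  core7 (xX (sS d a g H B) (tT d b H B) (nN d B)) (nN d B ^ 2) b g (B ^ d.nn d.ν) v h l y z

/-- The equation in seven unknowns with the parameters `a` and `e = 2 ^ a`. -/
def eqn7 (d : Dat) (a e : ℤ) (v : Fin 7 → ℤ) : ℤ :=
  e7 d a (v 1) (e * v 0 ^ 2) (hf d (e * v 0 ^ 2)) (2 * hf d (e * v 0 ^ 2))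
    (v 2) (v 3) (v 4) (v 5) (v 6)

@[fun_prop]
theorem pf_e7 {σ : Type} {a g b H B v h l y z : (σ → ℤ) → ℤ} (d : Dat) (_ : PF a) (_ : PF g)
    (_ : PF b) (_ : PF H) (_ : PF B) (_ : PF v) (_ : PF h) (_ : PF l) (_ : PF y)
    (_ : PF z) : PF fun w =>
    e7 d (a w) (g w) (b w) (H w) (B w) (v w) (h w) (l w) (y w) (z w) := by
  unfold e7 sS tT nN s1; fun_prop

theorem pf_eqn7 (d : Dat) : PF fun v : Fin 9 → ℤ => eqn7 d (v 0) (v 1) fun i => v i.succ.succ := by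
  unfold eqn7 hf; fun_prop

theorem eqn7_iff (d : Dat) (a : ℕ) :
    (∃ x : ℕ → ℕ, x d.ν = a ∧ x (d.ν + 1) = 1 ∧ d.P x = 0) ↔
      ∃ v : Fin 7 → ℤ, 0 ≤ v 6 ∧ eqn7 d a (2 ^ a) v = 0 := by
  have eb : ∀ f : ℤ, 2 ^ a * f ^ 2 = (2 ^ a * f.natAbs ^ 2 : ℕ) := fun f => by simp
  have eH : ∀ b : ℕ, ((2 ^ (d.β + 1) * b ^ (d.δ + 1) : ℕ) : ℤ) = hf d b := fun b => by simp [hf]
  have e2 : ∀ H : ℕ, 2 * (H : ℤ) = (2 * H : ℕ) := by simp
  have ab : ∀ f : ℕ, f ≠ 0 → 1 ≤ 2 ^ a * f ^ 2 ∧ a ≤ 2 ^ a * f ^ 2 := fun f h =>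
    ⟨Nat.pos_of_ne_zero (by positivity),
      a.lt_two_pow_self.le.trans (Nat.le_mul_of_pos_right _ (by positivity))⟩
  have tw : ∀ {b n : ℕ} {e : ℤ}, P2 b → b ≤ n → e = 1 ∨ e = -1 →
      (b * (2 * nN d (2 * hf d b) ^ 2) ∣ 4 ^ (2 * n + 1) + e * (b * (2 * n + 1).centralBinom) ↔
        nN d (2 * hf d b) ^ 2 ∣ n.centralBinom) := by
    rintro _ n e ⟨r, rfl⟩ h he
    obtain ⟨k, hk⟩ := nN_pow d r
    rw [Nat.cast_pow, Nat.cast_ofNat, hk, ← pow_succ', two_adic (by omega) he, central_odd]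
  constructor
  · rintro ⟨x, x1, x2, x0⟩
    set r := ∑ j ∈ range d.ν, x j + 1 with hr
    set b := 2 ^ a * (2 ^ r) ^ 2 with hb
    have b1 : 2 ^ r ≤ b := (Nat.le_self_pow two_ne_zero _).trans
      (Nat.le_mul_of_pos_left _ (by positivity))
    have b2 : r < b := r.lt_two_pow_self.trans_le b1
    have x3 : ∀ j < d.ν, x j < b := fun j hj =>
      (single_le_sum (fun _ _ => Nat.zero_le _) (mem_range.2 hj)).trans_lt (by omega)
    set H := 2 ^ (d.β + 1) * b ^ (d.δ + 1) with hH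
    have H2 : b ≤ H := (Nat.le_self_pow (by omega) b).trans
      (Nat.le_mul_of_pos_left _ (by positivity))
    have u1 := small d.mono (show 2 * b ≤ 2 * H by omega) x d.ν x3
    set g := ∑ j ∈ range d.ν, x j * (2 * H) ^ d.nn j with hg
    have q0 : (0 : ℤ) < ((2 * H : ℕ) : ℤ) ^ d.nn d.ν := pow_pos (by omega) _
    have u2 : 2 * (g : ℤ) ≤ ((2 * H : ℕ) : ℤ) ^ d.nn d.ν := by exact_mod_cast u1
    have u3 : 4 * (g : ℤ) ^ 2 ≤ (((2 * H : ℕ) : ℤ) ^ d.nn d.ν) ^ 2 := by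
      nlinarith only [u2, Int.natCast_nonneg g]
    obtain ⟨n, n1, n2, n3, n4⟩ := code d (g := g) (ab (2 ^ r) (by positivity)).1
      (ab (2 ^ r) (by positivity)).2 (eH b) rfl (by nlinarith only [u3, q0])
    have pb : P2 b := P2.mul ⟨_, rfl⟩ (P2.pow ⟨_, rfl⟩ _)
    have n5 := (n4 pb).2 ⟨x, x1, x2, x0, x3, rfl⟩
    rw [← hH, ← e2, eH] at n5
    have n6 := (tw pb n2 (Or.inl rfl)).2 n5
    rw [one_mul, ← eH, e2] at n6
    obtain ⟨v, h, l, y, z, z0, k⟩ := core7_complete (by omega) (by omega) u3 q0.ne' n6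
    refine ⟨![2 ^ r, g, v, h, l, y, z], z0, ?_⟩
    have e1 : (2 : ℤ) ^ a * (2 ^ r) ^ 2 = b := by simp [hb]
    change e7 d a g (2 ^ a * (2 ^ r) ^ 2) (hf d (2 ^ a * (2 ^ r) ^ 2))
      (2 * hf d (2 ^ a * (2 ^ r) ^ 2)) v h l y z = 0
    rw [e7, e1, ← eH, e2, n1]
    exact k
  · rintro ⟨v, z0, h⟩
    rw [eqn7, e7, eb, ← eH, e2] at h
    obtain ⟨h1, h2, h3⟩ := core7_sound z0 h
    have f0 := ab (v 0).natAbs (by rintro g; simp [g] at h2)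
    generalize 2 ^ a * (v 0).natAbs ^ 2 = b at *
    obtain ⟨n, n1, n2, -, n4⟩ := code d f0.1 f0.2 (eH _) rfl h1
    have h4 := h3 n b n1 rfl
    have h5 : (b : ℤ) ∣ 4 ^ (2 * n + 1) := by
      rcases h4 with h4 | h4
      · exact (dvd_add_left (dvd_mul_right _ _)).1 ((dvd_mul_right _ _).trans h4)
      · exact (dvd_sub_left (dvd_mul_right _ _)).1 ((dvd_mul_right _ _).trans h4)
    obtain ⟨r, -, hr⟩ := (Nat.dvd_prime_pow Nat.prime_two).1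
      (show b ∣ 2 ^ (2 * (2 * n + 1)) from Int.natCast_dvd_natCast.1 (by
        rw [pow_mul]; exact_mod_cast h5))
    rw [← e2, eH] at h4 n4
    obtain ⟨x, x1, x2, x0, -⟩ := (n4 ⟨r, hr⟩).1 (by
      rcases h4 with h4 | h4
      · exact (tw ⟨r, hr⟩ n2 (Or.inl rfl)).1 (by rwa [one_mul])
      · exact (tw ⟨r, hr⟩ n2 (Or.inr rfl)).1 (by rwa [neg_one_mul, ← sub_eq_add_neg]))
    exact ⟨x, x1, x2, x0⟩

/-- Recursively enumerable sets reduce to equations in six integer unknowns and one nonnegative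
unknown. -/
theorem reduction7 (p : ℕ → Prop) (hp : REPred p) :
    ∃ c : ℕ → List (ℤ × (Fin 7 → ℕ)), Primrec c ∧
      ∀ a, p a ↔ ∃ x : Fin 7 → ℤ, 0 ≤ x 6 ∧ ev (c a) x = 0 := by
  obtain ⟨d, hd⟩ := exists_dat p hp
  obtain ⟨c, h1, h2⟩ := exists_code (pf_eqn7 d)
  exact ⟨c, h1, fun a => by simp only [hd, eqn7_iff, h2]⟩

end Pool.Agent.MP_fed7c7_lc.H21
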